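import Pool.Agent.W838.DC.Basic

/-! # Project DC: counting -/

set_option autoImplicit false

namespace Pool.Agent.W933.DC

open Pool.Agent.W838.DC Pool.Agent.W838.DC.Sys

variable {V X : Type*} [AddCommGroup V] (σ : Sys V X)

open Classical in
/-- the involution -/
noncomputable def ph (a b : V) : V :=
  if σ.ip a b = -1 then b + a else if σ.ip a b = 1 ∧ 0 < σ.ht (b - a) then b - a else b

lemma ph_neg {a b : V} (h : σ.ip a b = -1) : ph σ a b = b + a := by
  unfold ph; rw [if_pos h]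

lemma ph_pos {a b : V} (h : σ.ip a b = 1) (h' : 0 < σ.ht (b - a)) : ph σ a b = b - a := by
  unfold ph; rw [if_neg (by omega), if_pos ⟨h, h'⟩]

lemma ph_zero {a b : V} (h : σ.ip a b = 0) : ph σ a b = b := by
  unfold ph; rw [if_neg (by omega), if_neg (by omega)]

lemma ph_id {a b : V} (h : σ.ip a b = 1) (h' : ¬ 0 < σ.ht (b - a)) : ph σ a b = b := by
  unfold ph; rw [if_neg (by omega), if_neg (by tauto)]

/-- the four cases for a positive root `b ≠ a` -/
lemma four {a b : V} (ha : a ∈ σ.Φ) (hb : b ∈ σ.Φ) (pa : 0 < σ.ht a) (pb : 0 < σ.ht b)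
    (h : a ≠ b) : σ.ip a b = -1 ∨ σ.ip a b = 0 ∨ (σ.ip a b = 1 ∧ 0 < σ.ht (b - a)) ∨
      (σ.ip a b = 1 ∧ σ.ht (b - a) < 0) := by
  rcases σ.ip_pos ha hb pa pb h with h1 | h1 | h1
  · exact Or.inl h1
  · exact Or.inr (Or.inl h1)
  · have h2 : b - a ∈ σ.Φ := σ.sub_mem hb ha (by rw [σ.ip_symm]; exact h1)
    rcases lt_or_gt_of_ne (σ.ht_ne _ h2) with h3 | h3
    · exact Or.inr (Or.inr (Or.inr ⟨h1, h3⟩))
    · exact Or.inr (Or.inr (Or.inl ⟨h1, h3⟩))

lemma ph_ph {a b : V} (ha : a ∈ σ.Φ) (hb : b ∈ σ.Φ) (pa : 0 < σ.ht a) (pb : 0 < σ.ht b)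
    (h : a ≠ b) : ph σ a (ph σ a b) = b := by
  rcases four σ ha hb pa pb h with h1 | h1 | ⟨h1, h2⟩ | ⟨h1, h2⟩
  · rw [ph_neg σ h1, ph_pos σ (b := b + a)]
    · abel
    · rw [σ.ip_add_right, h1, σ.ip_self a ha]; norm_num
    · rwa [add_sub_cancel_right]
  · rw [ph_zero σ h1, ph_zero σ h1]
  · rw [ph_pos σ h1 h2, ph_neg σ (b := b - a)]
    · abel
    · rw [σ.ip_sub_right, h1, σ.ip_self a ha]; norm_num
  · rw [ph_id σ h1 (by omega), ph_id σ h1 (by omega)]

/-- the involution exchanges the roots above `r a x` and above `x` -/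
lemma ph_R' {x : X} {a b : V} (ha : σ.R x a) (hb : σ.R (σ.r a x) b) :
    a ≠ b ∧ σ.R x (ph σ a b) ∧ ph σ a b ≠ a := by
  have haa := σ.ip_self a ha.1
  have hab : a ≠ b := by
    rintro rfl
    have h1 := hb.2.2
    rw [σ.lab_r_self ha.1, map_neg] at h1
    have := ha.2.2
    omega
  have hla := ha.2.2
  have hlb := hb.2.2
  refine ⟨hab, ?_⟩
  rcases four σ ha.1 hb.1 ha.2.1 hb.2.1 hab with h1 | h1 | ⟨h1, h2⟩ | ⟨h1, h2⟩
  · rw [ph_neg σ h1]
    rw [σ.lab_r_neg ha.1 x h1] at hlb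
    refine ⟨⟨?_, ?_, ?_⟩, ?_⟩
    · rw [add_comm]; exact σ.add_mem ha.1 hb.1 h1
    · rw [map_add]; have := ha.2.1; have := hb.2.1; omega
    · rwa [add_comm, map_add]
    · intro h
      have : b = 0 := by simpa using h
      have h3 := hb.2.1
      rw [this, map_zero] at h3
      omega
  · rw [ph_zero σ h1]
    rw [σ.lab_r_zero ha.1 x h1] at hlb
    exact ⟨⟨hb.1, hb.2.1, hlb⟩, hab.symm⟩
  · rw [ph_pos σ h1 h2]
    rw [σ.lab_r_pos ha.1 x h1] at hlb
    refine ⟨⟨σ.sub_mem hb.1 ha.1 (by rw [σ.ip_symm]; exact h1), h2, by rwa [map_sub]⟩, ?_⟩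
    intro h
    have : b = a + a := sub_eq_iff_eq_add.1 h
    rw [this, σ.ip_add_right] at h1
    omega
  · rw [ph_id σ h1 (by omega)]
    rw [σ.lab_r_pos ha.1 x h1, map_sub] at hlb
    exact ⟨⟨hb.1, hb.2.1, by omega⟩, hab.symm⟩

/-- a decomposition of `a` gives roots which are missed -/
lemma miss {x : X} {a b c : V} (ha : σ.R x a) (hb : σ.R x b) (hc : σ.R x c) (h : a = b + c)
    {d : V} (hd : σ.R (σ.r a x) d) : ph σ a d ≠ b := by
  intro hdb
  have hbb := σ.ip_self b hb.1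
  have hcc := σ.ip_self c hc.1
  have haa := σ.ip_self a ha.1
  have hcb := σ.ip_symm c b
  have e1 : σ.ip b c = -1 := by
    rw [h, σ.ip_add, σ.ip_add_right, σ.ip_add_right] at haa
    omega
  have e2 : σ.ip a b = 1 := by
    rw [h, σ.ip_add]
    omega
  have e3 : ¬ 0 < σ.ht (b - a) := by
    rw [h, show b - (b + c) = -c by abel, map_neg]
    have := hc.2.1
    omega
  have hne := (ph_R' σ ha hd).1
  have e4 := ph_ph σ ha.1 hd.1 ha.2.1 hd.2.1 hne
  rw [hdb, ph_id σ e2 e3] at e4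
  rw [← e4] at hd
  have h5 := hd.2.2
  rw [σ.lab_r_pos ha.1 x e2, map_sub, h, map_add, map_add] at h5
  have := hc.2.2
  omega

/-- surjectivity for indecomposable roots -/
lemma ph_surj {x : X} {a b : V} (ha : σ.R x a) (hb : σ.R x b) (hab : a ≠ b)
    (hi : ∀ c, σ.R x c → a ≠ b + c) : σ.R (σ.r a x) (ph σ a b) := by
  have haa := σ.ip_self a ha.1
  have hla := ha.2.2
  have hlb := hb.2.2
  rcases four σ ha.1 hb.1 ha.2.1 hb.2.1 hab with h1 | h1 | ⟨h1, h2⟩ | ⟨h1, h2⟩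
  · rw [ph_neg σ h1]
    have h3 : σ.ip a (b + a) = 1 := by rw [σ.ip_add_right]; omega
    refine ⟨?_, ?_, ?_⟩
    · rw [add_comm]; exact σ.add_mem ha.1 hb.1 h1
    · rw [map_add]; have := ha.2.1; have := hb.2.1; omega
    · rw [σ.lab_r_pos ha.1 x h3, map_add, add_sub_cancel_right]
      exact hlb
  · rw [ph_zero σ h1]
    exact ⟨hb.1, hb.2.1, by rwa [σ.lab_r_zero ha.1 x h1]⟩
  · rw [ph_pos σ h1 h2]
    have h3 : σ.ip a (b - a) = -1 := by rw [σ.ip_sub_right]; omega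
    refine ⟨σ.sub_mem hb.1 ha.1 (by rw [σ.ip_symm]; exact h1), h2, ?_⟩
    rw [σ.lab_r_neg ha.1 x h3, map_sub, add_sub_cancel]
    exact hlb
  · rw [ph_id σ h1 (by omega)]
    refine ⟨hb.1, hb.2.1, ?_⟩
    rw [σ.lab_r_pos ha.1 x h1, map_sub]
    have h3 : a - b ∈ σ.Φ := σ.sub_mem ha.1 hb.1 h1
    have h4 : 0 < σ.ht (a - b) := by
      rw [map_sub] at h2 ⊢
      omega
    have h5 : ¬ σ.R x (a - b) := fun h => hi _ h (by abel)
    have h6 := σ.lab_ht_ne x h3
    have h7 : ¬ 0 < σ.ht (σ.lab x (a - b)) := fun h => h5 ⟨h3, h4, h⟩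
    rw [map_sub, map_sub] at h6 h7
    omega

theorem cnt : S_CNT σ := by
  classical
  intro x a ha
  set T := σ.Φ.filter (fun b => 0 < σ.ht b ∧ 0 < σ.ht (σ.lab x b)) with hT
  set T' := σ.Φ.filter (fun b => 0 < σ.ht b ∧ 0 < σ.ht (σ.lab (σ.r a x) b)) with hT'
  have hmT : ∀ b, b ∈ T ↔ σ.R x b := fun b => by rw [hT, Finset.mem_filter]; rfl
  have hmT' : ∀ b, b ∈ T' ↔ σ.R (σ.r a x) b := fun b => by rw [hT', Finset.mem_filter]; rfl
  rw [σ.mu_card x, σ.mu_card (σ.r a x), ← hT, ← hT']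
  have hinj : Set.InjOn (ph σ a) T' := by
    intro b hb c hc hbc
    have hb' := (hmT' b).1 hb
    have hc' := (hmT' c).1 hc
    rw [← ph_ph σ ha.1 hb'.1 ha.2.1 hb'.2.1 (ph_R' σ ha hb').1, hbc,
      ph_ph σ ha.1 hc'.1 ha.2.1 hc'.2.1 (ph_R' σ ha hc').1]
  have hcard : (T'.image (ph σ a)).card = T'.card := Finset.card_image_of_injOn hinj
  have haT : a ∈ T := (hmT a).2 ha
  have hsub : T'.image (ph σ a) ⊆ T.erase a := by
    intro z hz
    rw [Finset.mem_image] at hz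
    obtain ⟨b, hb, rfl⟩ := hz
    have h1 := ph_R' σ ha ((hmT' b).1 hb)
    exact Finset.mem_erase.2 ⟨h1.2.2, (hmT _).2 h1.2.1⟩
  have hpos : 0 < T.card := Finset.card_pos.2 ⟨a, haT⟩
  refine ⟨?_, fun hi => ?_, ?_⟩
  · have h1 := Finset.card_le_card hsub
    rw [hcard, Finset.card_erase_of_mem haT] at h1
    omega
  · have heq : T'.image (ph σ a) = T.erase a := by
      refine Finset.Subset.antisymm hsub fun b hb => ?_
      rw [Finset.mem_erase] at hb
      have hbR := (hmT b).1 hb.2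
      refine Finset.mem_image.2 ⟨ph σ a b, (hmT' _).2 (ph_surj σ ha hbR (Ne.symm hb.1) ?_),
        ph_ph σ ha.1 hbR.1 ha.2.1 hbR.2.1 (Ne.symm hb.1)⟩
      exact fun c hc h => hi b c hbR hc h
    rw [heq, Finset.card_erase_of_mem haT] at hcard
    omega
  · rintro ⟨b, c, hb, hc, h⟩
    have hbb := σ.ip_self b hb.1
    have hcc := σ.ip_self c hc.1
    have haa := σ.ip_self a ha.1
    have hcb := σ.ip_symm c b
    have hbc : b ≠ c := by
      rintro rfl
      rw [h, σ.ip_add, σ.ip_add_right] at haa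
      omega
    have hab : a ≠ b := by
      intro h'
      have : c = 0 := by
        rw [h'] at h
        simpa using h
      have h3 := hc.2.1
      rw [this, map_zero] at h3
      omega
    have hac : a ≠ c := by
      intro h'
      have : b = 0 := by
        rw [h'] at h
        simpa using h
      have h3 := hb.2.1
      rw [this, map_zero] at h3
      omega
    have hsub2 : T'.image (ph σ a) ⊆ ((T.erase a).erase b).erase c := by
      intro z hz
      have hz1 := hsub hz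
      rw [Finset.mem_image] at hz
      obtain ⟨d, hd, rfl⟩ := hz
      have hd' := (hmT' d).1 hd
      exact Finset.mem_erase.2 ⟨miss σ ha hc hb (by rw [h, add_comm]) hd',
        Finset.mem_erase.2 ⟨miss σ ha hb hc h hd', hz1⟩⟩
    have hb1 : b ∈ T.erase a := Finset.mem_erase.2 ⟨hab.symm, (hmT b).2 hb⟩
    have hc1 : c ∈ (T.erase a).erase b :=
      Finset.mem_erase.2 ⟨hbc.symm, Finset.mem_erase.2 ⟨hac.symm, (hmT c).2 hc⟩⟩
    have h1 := Finset.card_le_card hsub2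
    have e1 := Finset.card_erase_add_one hc1
    have e2 := Finset.card_erase_add_one hb1
    have e3 := Finset.card_erase_add_one haT
    rw [hcard] at h1
    omega

end Pool.Agent.W933.DC
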